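import Pool.Agent.H242.GX.Stm

/-!
# GX-PER (helper400, for helper242): periodic extension
-/

open Set Filter Topology
open scoped ContDiff

namespace Pool.Agent.H400.GXPER

open Pool.Agent.H242.GX

lemma floor_eq {φ : ℝ} {j : ℤ} (h1 : j * (2 * Real.pi) ≤ φ) (h2 : φ < (j + 1) * (2 * Real.pi)) :
    ⌊φ / (2 * Real.pi)⌋ = j := by
  have hp : 0 < 2 * Real.pi := Real.two_pi_pos
  rw [Int.floor_eq_iff]
  exact ⟨(le_div_iff₀ hp).2 h1, (div_lt_iff₀ hp).2 h2⟩

/-- the periodic extension -/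
noncomputable def ext (G : ℝ × ℝ → ℝ) (x : ℝ × ℝ) : ℝ :=
  G (x.1 - ⌊x.1 / (2 * Real.pi)⌋ * (2 * Real.pi), x.2)

lemma ext_local {G : ℝ × ℝ → ℝ}
    (hG : ∀ φ y : ℝ, (y ≤ 0 ∨ φ ≤ 0 ∨ 2 * Real.pi ≤ φ) → G (φ, y) = 0) (j : ℤ) (x : ℝ × ℝ)
    (h1 : (j - 1) * (2 * Real.pi) < x.1) (h2 : x.1 < (j + 1) * (2 * Real.pi)) :
    ext G x = G (x.1 - j * (2 * Real.pi), x.2) + G (x.1 - (j - 1) * (2 * Real.pi), x.2) := by
  rcases le_or_gt (j * (2 * Real.pi)) x.1 with h | h
  · have e : ⌊x.1 / (2 * Real.pi)⌋ = j := floor_eq h h2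
    have z : G (x.1 - (j - 1) * (2 * Real.pi), x.2) = 0 :=
      hG _ _ (Or.inr (Or.inr (by linarith)))
    unfold ext
    rw [e, z, add_zero]
  · have e : ⌊x.1 / (2 * Real.pi)⌋ = j - 1 := by
      apply floor_eq
      · push_cast
        exact h1.le
      · push_cast
        linarith
    have z : G (x.1 - j * (2 * Real.pi), x.2) = 0 := hG _ _ (Or.inr (Or.inl (by linarith)))
    unfold ext
    rw [e, z, zero_add]
    push_cast
    rfl

theorem gx_PER : S_PER := by
  intro G hs hG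
  have hp : 0 < 2 * Real.pi := Real.two_pi_pos
  refine ⟨ext G, ?_, ?_, ?_, ?_⟩
  · rw [contDiff_iff_contDiffAt]
    intro x₀
    obtain ⟨j, hj⟩ : ∃ j : ℤ, j = ⌊x₀.1 / (2 * Real.pi)⌋ := ⟨_, rfl⟩
    have h1 : (j : ℝ) * (2 * Real.pi) ≤ x₀.1 := by
      rw [← le_div_iff₀ hp, hj]
      exact Int.floor_le _
    have h2 : x₀.1 < ((j : ℝ) + 1) * (2 * Real.pi) := by
      rw [← div_lt_iff₀ hp, hj]
      exact Int.lt_floor_add_one _
    have hop : IsOpen {x : ℝ × ℝ | ((j : ℝ) - 1) * (2 * Real.pi) < x.1 ∧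
        x.1 < ((j : ℝ) + 1) * (2 * Real.pi)} :=
      (isOpen_lt continuous_const continuous_fst).inter (isOpen_lt continuous_fst continuous_const)
    have hmem : x₀ ∈ {x : ℝ × ℝ | ((j : ℝ) - 1) * (2 * Real.pi) < x.1 ∧
        x.1 < ((j : ℝ) + 1) * (2 * Real.pi)} := ⟨by linarith, h2⟩
    have hsm : ∀ c : ℝ, ContDiff ℝ ∞ (fun x : ℝ × ℝ => G (x.1 - c, x.2)) := fun c =>
      hs.comp ((contDiff_fst.sub contDiff_const).prodMk contDiff_snd)
    refine (((hsm (j * (2 * Real.pi))).add (hsm ((j - 1) * (2 * Real.pi)))).contDiffAt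
      (x := x₀)).congr_of_eventuallyEq ?_
    filter_upwards [hop.mem_nhds hmem] with x hx
    exact ext_local hG j x hx.1 hx.2
  · intro φ y
    have e : ⌊(φ + 2 * Real.pi) / (2 * Real.pi)⌋ = ⌊φ / (2 * Real.pi)⌋ + 1 := by
      rw [add_div, div_self hp.ne', Int.floor_add_one]
    unfold ext
    dsimp only
    rw [e]
    push_cast
    congr 2
    ring
  · intro φ y hy
    exact hG _ _ (Or.inl hy)
  · intro φ y h0 h1
    rcases h1.lt_or_eq with h | h
    · have e : ⌊φ / (2 * Real.pi)⌋ = 0 := by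
        apply floor_eq
        · push_cast
          linarith
        · push_cast
          linarith
      unfold ext
      dsimp only
      rw [e, Int.cast_zero, zero_mul, sub_zero]
    · have e : ⌊φ / (2 * Real.pi)⌋ = 1 := by
        apply floor_eq
        · push_cast
          linarith
        · push_cast
          linarith
      unfold ext
      dsimp only
      rw [e, Int.cast_one, one_mul, h, sub_self, hG 0 y (Or.inr (Or.inl le_rfl)),
        hG _ y (Or.inr (Or.inr le_rfl))]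

end Pool.Agent.H400.GXPER
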